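import Mathlib

/-! Partial derivatives and a cubic Taylor polynomial in the plane. -/

set_option autoImplicit false

open Set Filter Topology

namespace Pool.Agent.U252.Sp

/-- partial derivative in the first variable -/
noncomputable def D1 (f : ℝ × ℝ → ℝ) : ℝ × ℝ → ℝ := fun z => fderiv ℝ f z (1, 0)

/-- partial derivative in the second variable -/
noncomputable def D2 (f : ℝ × ℝ → ℝ) : ℝ × ℝ → ℝ := fun z => fderiv ℝ f z (0, 1)

/-- the linear form with coefficients `a`, `b` -/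
noncomputable def lin (a b : ℝ) : ℝ × ℝ →L[ℝ] ℝ :=
  a • ContinuousLinearMap.fst ℝ ℝ ℝ + b • ContinuousLinearMap.snd ℝ ℝ ℝ

lemma lin_apply (a b : ℝ) (w : ℝ × ℝ) : lin a b w = a * w.1 + b * w.2 := by
  simp [lin]

lemma lin_cont {X : Type*} [TopologicalSpace X] {a b : X → ℝ} (ha : Continuous a)
    (hb : Continuous b) : Continuous fun x => lin (a x) (b x) := by
  unfold lin
  exact (ha.smul continuous_const).add (hb.smul continuous_const)

lemma fderiv_eq_lin (f : ℝ × ℝ → ℝ) (z : ℝ × ℝ) : fderiv ℝ f z = lin (D1 f z) (D2 f z) := by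
  ext
  · simp [lin_apply, D1]
  · simp [lin_apply, D2]

lemma norm_lin (a b : ℝ) : ‖lin a b‖ ≤ |a| + |b| := by
  refine ContinuousLinearMap.opNorm_le_bound _ (by positivity) fun w => ?_
  rw [lin_apply, Real.norm_eq_abs]
  have h1 : |w.1| ≤ ‖w‖ := by
    have := norm_fst_le w
    rwa [Real.norm_eq_abs] at this
  have h2 : |w.2| ≤ ‖w‖ := by
    have := norm_snd_le w
    rwa [Real.norm_eq_abs] at this
  calc |a * w.1 + b * w.2| ≤ |a * w.1| + |b * w.2| := abs_add_le _ _
    _ = |a| * |w.1| + |b| * |w.2| := by rw [abs_mul, abs_mul]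
    _ ≤ |a| * ‖w‖ + |b| * ‖w‖ := by gcongr
    _ = (|a| + |b|) * ‖w‖ := by ring

/-- mean value inequality on the unit square around `c` -/
lemma mv {R Rx Ry : ℝ × ℝ → ℝ} (hR : ∀ z, HasFDerivAt R (lin (Rx z) (Ry z)) z) {c : ℝ × ℝ}
    (h0 : R c = 0) {B : ℝ} (hx : ∀ z ∈ Metric.closedBall c 1, |Rx z| ≤ B)
    (hy : ∀ z ∈ Metric.closedBall c 1, |Ry z| ≤ B) :
    ∀ z ∈ Metric.closedBall c 1, |R z| ≤ 2 * B := by
  intro z hz
  have hc : c ∈ Metric.closedBall c 1 := Metric.mem_closedBall_self zero_le_one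
  have h := (convex_closedBall c 1).norm_image_sub_le_of_norm_hasFDerivWithin_le (𝕜 := ℝ)
    (f := R) (f' := fun z => lin (Rx z) (Ry z)) (C := 2 * B)
    (fun x _ => (hR x).hasFDerivWithinAt) (fun x hx' => ?_) hc hz
  · rw [h0, sub_zero, Real.norm_eq_abs] at h
    have h1 : ‖z - c‖ ≤ 1 := by
      rw [← dist_eq_norm]; exact hz
    have h2 : 0 ≤ B := (abs_nonneg _).trans (hx c hc)
    nlinarith
  · have := norm_lin (Rx x) (Ry x)
    have h1 := hx x hx'
    have h2 := hy x hx'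
    linarith

lemma contDiff_D1 {f : ℝ × ℝ → ℝ} {n m : WithTop ℕ∞} (hf : ContDiff ℝ n f) (h : m + 1 ≤ n) :
    ContDiff ℝ m (D1 f) :=
  (hf.fderiv_right h).clm_apply contDiff_const

lemma contDiff_D2 {f : ℝ × ℝ → ℝ} {n m : WithTop ℕ∞} (hf : ContDiff ℝ n f) (h : m + 1 ≤ n) :
    ContDiff ℝ m (D2 f) :=
  (hf.fderiv_right h).clm_apply contDiff_const

lemma D_comm {f : ℝ × ℝ → ℝ} (hf : ContDiff ℝ 2 f) : D2 (D1 f) = D1 (D2 f) := by
  funext z
  have hd : Differentiable ℝ (fderiv ℝ f) :=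
    (hf.fderiv_right (m := 1) (by norm_num)).differentiable (by norm_num)
  have hs : IsSymmSndFDerivAt ℝ f z := hf.contDiffAt.isSymmSndFDerivAt (by simp)
  unfold D1 D2
  have h1 : fderiv ℝ (fun z => fderiv ℝ f z (1, 0)) z (0, 1) =
      fderiv ℝ (fderiv ℝ f) z (0, 1) (1, 0) := by
    rw [fderiv_clm_apply (hd z) (differentiableAt_const _)]
    simp
  have h2 : fderiv ℝ (fun z => fderiv ℝ f z (0, 1)) z (1, 0) =
      fderiv ℝ (fderiv ℝ f) z (1, 0) (0, 1) := by
    rw [fderiv_clm_apply (hd z) (differentiableAt_const _)]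
    simp
  rw [h1, h2]
  exact hs _ _

/-- the partial derivative of order `i` in the first and `j` in the second variable -/
noncomputable def pd (i j : ℕ) (f : ℝ × ℝ → ℝ) : ℝ × ℝ → ℝ := D1^[i] (D2^[j] f)

lemma contDiff_iter {D : (ℝ × ℝ → ℝ) → ℝ × ℝ → ℝ}
    (hD : ∀ (f : ℝ × ℝ → ℝ) (n m : WithTop ℕ∞), ContDiff ℝ n f → m + 1 ≤ n → ContDiff ℝ m (D f))
    (i : ℕ) : ∀ (n : ℕ) (f : ℝ × ℝ → ℝ), ContDiff ℝ ((n + i : ℕ) : WithTop ℕ∞) f →
      ContDiff ℝ (n : WithTop ℕ∞) (D^[i] f) := by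
  induction i with
  | zero => intro n f hf; simpa using hf
  | succ i ih =>
    intro n f hf
    rw [Function.iterate_succ_apply]
    refine ih n _ (hD f _ _ hf ?_)
    rw [← Nat.cast_one, ← Nat.cast_add]
    exact le_of_eq (by congr 1)

lemma contDiff_pd {i j n : ℕ} {f : ℝ × ℝ → ℝ} (hf : ContDiff ℝ ((n + i + j : ℕ) : WithTop ℕ∞) f) :
    ContDiff ℝ (n : WithTop ℕ∞) (pd i j f) :=
  contDiff_iter (fun _ _ _ h h' => contDiff_D1 h h') i n _
    (contDiff_iter (fun _ _ _ h h' => contDiff_D2 h h') j (n + i) f hf)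

lemma D1_pd (i j : ℕ) (f : ℝ × ℝ → ℝ) : D1 (pd i j f) = pd (i + 1) j f := by
  unfold pd
  rw [Function.iterate_succ_apply']

lemma D2_iter (i : ℕ) : ∀ (f : ℝ × ℝ → ℝ), ContDiff ℝ ((i + 1 : ℕ) : WithTop ℕ∞) f →
    D2 (D1^[i] f) = D1^[i] (D2 f) := by
  induction i with
  | zero => intro f _; rfl
  | succ i ih =>
    intro f hf
    rw [Function.iterate_succ_apply, Function.iterate_succ_apply, ih (D1 f) ?_, D_comm ?_]
    · exact hf.of_le (by exact_mod_cast (by omega : 2 ≤ i + 1 + 1))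
    · exact contDiff_D1 hf (by exact_mod_cast le_refl _)

lemma D2_pd {i j : ℕ} {f : ℝ × ℝ → ℝ} (hf : ContDiff ℝ ((i + 1 + j : ℕ) : WithTop ℕ∞) f) :
    D2 (pd i j f) = pd i (j + 1) f := by
  unfold pd
  rw [D2_iter i _ (contDiff_iter (fun _ _ _ h h' => contDiff_D2 h h') j (i + 1) f hf),
    Function.iterate_succ_apply']

/-- the cubic polynomial with the partial derivatives `A i j` at `c` -/
noncomputable def cub (A : ℕ → ℕ → ℝ) (c z : ℝ × ℝ) : ℝ :=
  A 0 0 + A 1 0 * (z.1 - c.1) + A 0 1 * (z.2 - c.2) + A 2 0 * (z.1 - c.1) ^ 2 / 2 +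
    A 1 1 * (z.1 - c.1) * (z.2 - c.2) + A 0 2 * (z.2 - c.2) ^ 2 / 2 +
    A 3 0 * (z.1 - c.1) ^ 3 / 6 + A 2 1 * (z.1 - c.1) ^ 2 * (z.2 - c.2) / 2 +
    A 1 2 * (z.1 - c.1) * (z.2 - c.2) ^ 2 / 2 + A 0 3 * (z.2 - c.2) ^ 3 / 6

lemma hasFDerivAt_cub (A : ℕ → ℕ → ℝ) (hA : ∀ i j, 4 ≤ i + j → A i j = 0) (c z : ℝ × ℝ) :
    HasFDerivAt (cub A c) (lin (cub (fun i j => A (i + 1) j) c z)
      (cub (fun i j => A i (j + 1)) c z)) z := by
  have hx : HasFDerivAt (fun z : ℝ × ℝ => z.1 - c.1) (lin 1 0) z := by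
    have : HasFDerivAt (fun z : ℝ × ℝ => z.1 - c.1) (ContinuousLinearMap.fst ℝ ℝ ℝ) z :=
      hasFDerivAt_fst.sub_const _
    exact this.congr_fderiv (by ext <;> simp [lin_apply])
  have hy : HasFDerivAt (fun z : ℝ × ℝ => z.2 - c.2) (lin 0 1) z := by
    have : HasFDerivAt (fun z : ℝ × ℝ => z.2 - c.2) (ContinuousLinearMap.snd ℝ ℝ ℝ) z :=
      hasFDerivAt_snd.sub_const _
    exact this.congr_fderiv (by ext <;> simp [lin_apply])
  have e40 := hA 4 0 (by norm_num)
  have e31 := hA 3 1 (by norm_num)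
  have e22 := hA 2 2 (by norm_num)
  have e13 := hA 1 3 (by norm_num)
  have e04 := hA 0 4 (by norm_num)
  have h := ((((((((((hasFDerivAt_const (A 0 0) z).add (hx.const_mul (A 1 0))).add
    (hy.const_mul (A 0 1))).add (((hx.pow 2).const_mul (A 2 0)).mul_const (1 / 2))).add
    ((hx.const_mul (A 1 1)).mul hy)).add (((hy.pow 2).const_mul (A 0 2)).mul_const (1 / 2))).add
    (((hx.pow 3).const_mul (A 3 0)).mul_const (1 / 6))).add
    ((((hx.pow 2).const_mul (A 2 1)).mul hy).mul_const (1 / 2))).add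
    (((hx.const_mul (A 1 2)).mul (hy.pow 2)).mul_const (1 / 2))).add
    (((hy.pow 3).const_mul (A 0 3)).mul_const (1 / 6)))
  refine (h.congr_fderiv ?_).congr_of_eventuallyEq (Eventually.of_forall fun z => ?_)
  · ext
    · simp [lin_apply, cub, e40, e31, e22, e13, e04]
      ring
    · simp [lin_apply, cub, e40, e31, e22, e13, e04]
      ring
  · simp only [cub, Pi.add_apply, Pi.mul_apply]
    ring

/-- the Taylor coefficients of order at most three -/
noncomputable def co3 (f : ℝ × ℝ → ℝ) (c : ℝ × ℝ) (i j : ℕ) : ℝ :=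
  if i + j ≤ 3 then pd i j f c else 0

lemma cub_self (A : ℕ → ℕ → ℝ) (c : ℝ × ℝ) : cub A c c = A 0 0 := by
  simp [cub]

/-- the remainders -/
lemma rem {f : ℝ × ℝ → ℝ} (hf : ContDiff ℝ 4 f) {M : ℝ}
    (hM : ∀ i j, i + j = 4 → ∀ z, |pd i j f z| ≤ M) (c : ℝ × ℝ) (n : ℕ) :
    ∀ i j, i + j + n = 4 → ∀ z ∈ Metric.closedBall c 1,
      |pd i j f z - cub (fun a b => co3 f c (a + i) (b + j)) c z| ≤ 2 ^ n * M := by
  induction n with
  | zero =>
    intro i j hij z _
    have h0 : cub (fun a b => co3 f c (a + i) (b + j)) c z = 0 := by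
      have : ∀ a b : ℕ, co3 f c (a + i) (b + j) = 0 := fun a b => by
        unfold co3
        rw [if_neg (by omega)]
      unfold cub
      simp only [this]
      ring
    rw [h0, sub_zero, pow_zero, one_mul]
    exact hM i j (by omega) z
  | succ n ih =>
    intro i j hij
    have hx := ih (i + 1) j (by omega)
    have hy := ih i (j + 1) (by omega)
    have hcd : ContDiff ℝ (1 : WithTop ℕ∞) (pd i j f) := by
      have : ContDiff ℝ ((1 + i + j : ℕ) : WithTop ℕ∞) f :=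
        hf.of_le (by exact_mod_cast (by omega : 1 + i + j ≤ 4))
      exact_mod_cast contDiff_pd this
    have hder : ∀ z, HasFDerivAt (fun z => pd i j f z -
        cub (fun a b => co3 f c (a + i) (b + j)) c z)
        (lin (pd (i + 1) j f z - cub (fun a b => co3 f c (a + (i + 1)) (b + j)) c z)
          (pd i (j + 1) f z - cub (fun a b => co3 f c (a + i) (b + (j + 1))) c z)) z := by
      intro z
      have h1 : HasFDerivAt (pd i j f) (lin (pd (i + 1) j f z) (pd i (j + 1) f z)) z := by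
        have h2 := ((hcd.differentiable (by norm_num)) z).hasFDerivAt
        rw [fderiv_eq_lin, D1_pd, D2_pd ?_] at h2
        · exact h2
        · exact hf.of_le (by exact_mod_cast (by omega : i + 1 + j ≤ 4))
      have h3 := hasFDerivAt_cub (fun a b => co3 f c (a + i) (b + j))
        (fun a b hab => by unfold co3; rw [if_neg (by omega)]) c z
      have h4 := h1.sub h3
      refine h4.congr_fderiv ?_
      simp only [show ∀ a : ℕ, a + (i + 1) = a + 1 + i from fun a => by omega,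
          show ∀ b : ℕ, b + (j + 1) = b + 1 + j from fun b => by omega]
      ext
      · simp [lin_apply]
      · simp [lin_apply]
    intro z hz
    have h0 : pd i j f c - cub (fun a b => co3 f c (a + i) (b + j)) c c = 0 := by
      rw [cub_self]
      unfold co3
      rw [if_pos (by omega)]
      simp
    have := mv hder h0 hx hy z hz
    rw [pow_succ]
    linarith

end Pool.Agent.U252.Sp
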