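import Pool.Agent.U252.Sp.A

/-! The cubic macro element of Fraeijs de Veubeke and Sander on a diamond. -/

set_option autoImplicit false

open Set Filter Topology

namespace Pool.Agent.U252.Sp

/-- the coefficients of an element -/
structure Co where
  (p00 p10 p01 p20 p11 p02 p30 p21 p12 p03 a0 a1 a2 b0 b1 b2 : ℝ)

/-- the data of an element: value and partial derivatives at the four vertices, normal derivatives
at the midpoints of the four edges -/
structure Da where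
  (fE gE kE fW gW kW fN gN kN fS gS kS nA nB nC nD : ℝ)

/-- the coefficients from the data -/
noncomputable def co (d : Da) : Co where
  p00 := 1/4 * d.fE - 1/24 * d.gE + 1/4 * d.fW + 1/24 * d.gW + 1/4 * d.fN - 1/24 * d.kN + 1/4 * d.fS + 1/24 * d.kS - 1/12 * d.nA + 1/12 * d.nB + 1/12 * d.nC - 1/12 * d.nD
  p01 := 3/8 * d.kE + 3/8 * d.kW + 3/4 * d.fN - 1/8 * d.kN - 3/4 * d.fS - 1/8 * d.kS - 1/4 * d.nA - 1/4 * d.nB + 1/4 * d.nC + 1/4 * d.nD
  p02 := -(3/4 * d.fE) + 1/8 * d.gE - 3/4 * d.fW - 1/8 * d.gW + 3/4 * d.fN - 3/8 * d.kN + 3/4 * d.fS + 3/8 * d.kS + 1/4 * d.nA - 1/4 * d.nB - 1/4 * d.nC + 1/4 * d.nD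
  p03 := 3/8 * d.kE + 3/8 * d.kW - 1/4 * d.fN + 3/8 * d.kN + 1/4 * d.fS + 3/8 * d.kS - 1/4 * d.nA - 1/4 * d.nB + 1/4 * d.nC + 1/4 * d.nD
  p10 := 3/4 * d.fE - 1/8 * d.gE - 3/4 * d.fW - 1/8 * d.gW + 3/8 * d.gN + 3/8 * d.gS - 1/4 * d.nA - 1/4 * d.nB - 1/4 * d.nC - 1/4 * d.nD
  p11 := 3/4 * d.kE - 3/4 * d.kW + 3/4 * d.gN - 3/4 * d.gS - 1/2 * d.nA + 1/2 * d.nB - 1/2 * d.nC + 1/2 * d.nD
  p12 := -(3/4 * d.fE) + 1/8 * d.gE + 3/4 * d.fW + 1/8 * d.gW + 1/8 * d.gN + 1/8 * d.gS + 1/4 * d.nA + 1/4 * d.nB + 1/4 * d.nC + 1/4 * d.nD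
  p20 := 3/4 * d.fE - 3/8 * d.gE + 3/4 * d.fW + 3/8 * d.gW - 3/4 * d.fN + 1/8 * d.kN - 3/4 * d.fS - 1/8 * d.kS + 1/4 * d.nA - 1/4 * d.nB - 1/4 * d.nC + 1/4 * d.nD
  p21 := 1/8 * d.kE + 1/8 * d.kW - 3/4 * d.fN + 1/8 * d.kN + 3/4 * d.fS + 1/8 * d.kS + 1/4 * d.nA + 1/4 * d.nB - 1/4 * d.nC - 1/4 * d.nD
  p30 := -(1/4 * d.fE) + 3/8 * d.gE + 1/4 * d.fW + 3/8 * d.gW + 3/8 * d.gN + 3/8 * d.gS - 1/4 * d.nA - 1/4 * d.nB - 1/4 * d.nC - 1/4 * d.nD
  a0 := -(1/4 * d.gE) - 1/4 * d.gW - 3/4 * d.gN - 3/4 * d.gS + 1/2 * d.nA + 1/2 * d.nB + 1/2 * d.nC + 1/2 * d.nD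
  a1 := -(1/2 * d.fE) + 5/12 * d.gE - 1/2 * d.fW - 5/12 * d.gW + 1/2 * d.fN - 1/12 * d.kN + 1/2 * d.fS + 1/12 * d.kS - 1/6 * d.nA + 1/6 * d.nB + 1/6 * d.nC - 1/6 * d.nD
  a2 := -(1/4 * d.kE) + 1/4 * d.kW - 3/4 * d.gN + 3/4 * d.gS + 1/2 * d.nA - 1/2 * d.nB + 1/2 * d.nC - 1/2 * d.nD
  b0 := -(3/4 * d.kE) - 3/4 * d.kW - 1/4 * d.kN - 1/4 * d.kS + 1/2 * d.nA + 1/2 * d.nB - 1/2 * d.nC - 1/2 * d.nD
  b1 := -(3/4 * d.kE) + 3/4 * d.kW - 1/4 * d.gN + 1/4 * d.gS + 1/2 * d.nA - 1/2 * d.nB + 1/2 * d.nC - 1/2 * d.nD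
  b2 := 1/2 * d.fE - 1/12 * d.gE + 1/2 * d.fW + 1/12 * d.gW - 1/2 * d.fN + 5/12 * d.kN - 1/2 * d.fS - 5/12 * d.kS - 1/6 * d.nA + 1/6 * d.nB + 1/6 * d.nC - 1/6 * d.nD

/-- the element -/
noncomputable def gen (c : Co) (X Y : ℝ) : ℝ :=
  c.p00 + c.p10 * X + c.p01 * Y + c.p20 * X ^ 2 + c.p11 * (X * Y) + c.p02 * Y ^ 2 + c.p30 * X ^ 3 +
    c.p21 * (X ^ 2 * Y) + c.p12 * (X * Y ^ 2) + c.p03 * Y ^ 3 +
    c.a0 * (X * |X|) + c.a1 * (X * (X * |X|)) + c.a2 * (Y * (X * |X|)) +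
    c.b0 * (Y * |Y|) + c.b1 * (X * (Y * |Y|)) + c.b2 * (Y * (Y * |Y|))

/-- its derivative in the first variable -/
noncomputable def genx (c : Co) (X Y : ℝ) : ℝ :=
  c.p10 + 2 * c.p20 * X + c.p11 * Y + 3 * c.p30 * X ^ 2 + 2 * c.p21 * (X * Y) + c.p12 * Y ^ 2 +
    2 * c.a0 * |X| + 3 * c.a1 * (X * |X|) + 2 * c.a2 * (Y * |X|) + c.b1 * (Y * |Y|)

/-- its derivative in the second variable -/
noncomputable def geny (c : Co) (X Y : ℝ) : ℝ :=
  c.p01 + c.p11 * X + 2 * c.p02 * Y + c.p21 * X ^ 2 + 2 * c.p12 * (X * Y) + 3 * c.p03 * Y ^ 2 +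
    c.a2 * (X * |X|) + 2 * c.b0 * |Y| + 2 * c.b1 * (X * |Y|) + 3 * c.b2 * (Y * |Y|)

lemma hasDerivAt_mul_abs (t : ℝ) : HasDerivAt (fun t : ℝ => t * |t|) (2 * |t|) t := by
  rcases lt_trichotomy t 0 with h | h | h
  · have h1 : HasDerivAt (fun t : ℝ => -(t ^ 2)) (-(2 * t)) t :=
      ((hasDerivAt_pow 2 t).neg).congr_deriv (by simp)
    rw [abs_of_neg h]
    refine (h1.congr_of_eventuallyEq ?_).congr_deriv (by ring)
    filter_upwards [gt_mem_nhds h] with x hx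
    rw [abs_of_neg hx]
    ring
  · subst h
    rw [abs_zero, mul_zero, hasDerivAt_iff_tendsto_slope_zero]
    have h1 : Tendsto (fun t : ℝ => |t|) (𝓝[≠] 0) (𝓝 0) := by
      have : Tendsto (fun t : ℝ => |t|) (𝓝 0) (𝓝 |0|) := continuous_abs.tendsto 0
      rw [abs_zero] at this
      exact this.mono_left nhdsWithin_le_nhds
    refine h1.congr' ?_
    filter_upwards [self_mem_nhdsWithin] with x hx
    have hx' : x ≠ 0 := hx
    simp only [zero_add, abs_zero, mul_zero, sub_zero, smul_eq_mul]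
    field_simp
  · have h1 : HasDerivAt (fun t : ℝ => t ^ 2) (2 * t) t := by
      simpa using hasDerivAt_pow 2 t
    rw [abs_of_pos h]
    refine h1.congr_of_eventuallyEq ?_
    filter_upwards [lt_mem_nhds h] with x hx
    rw [abs_of_pos hx]
    ring

/-- the element with the center `q` -/
noncomputable def el (c : Co) (q z : ℝ × ℝ) : ℝ := gen c (z.1 - q.1) (z.2 - q.2)

/-- its derivative -/
noncomputable def el' (c : Co) (q z : ℝ × ℝ) : ℝ × ℝ →L[ℝ] ℝ :=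
  lin (genx c (z.1 - q.1) (z.2 - q.2)) (geny c (z.1 - q.1) (z.2 - q.2))

lemma hasFDerivAt_el (c : Co) (q z : ℝ × ℝ) : HasFDerivAt (el c q) (el' c q z) z := by
  have hx : HasFDerivAt (fun z : ℝ × ℝ => z.1 - q.1) (lin 1 0) z := by
    have : HasFDerivAt (fun z : ℝ × ℝ => z.1 - q.1) (ContinuousLinearMap.fst ℝ ℝ ℝ) z :=
      hasFDerivAt_fst.sub_const _
    exact this.congr_fderiv (by ext <;> simp [lin_apply])
  have hy : HasFDerivAt (fun z : ℝ × ℝ => z.2 - q.2) (lin 0 1) z := by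
    have : HasFDerivAt (fun z : ℝ × ℝ => z.2 - q.2) (ContinuousLinearMap.snd ℝ ℝ ℝ) z :=
      hasFDerivAt_snd.sub_const _
    exact this.congr_fderiv (by ext <;> simp [lin_apply])
  have hX := (hasDerivAt_mul_abs (z.1 - q.1)).comp_hasFDerivAt z hx
  have hY := (hasDerivAt_mul_abs (z.2 - q.2)).comp_hasFDerivAt z hy
  have h := (((((((((((((((hasFDerivAt_const c.p00 z).add (hx.const_mul c.p10)).add
    (hy.const_mul c.p01)).add ((hx.pow 2).const_mul c.p20)).add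
    ((hx.mul hy).const_mul c.p11)).add ((hy.pow 2).const_mul c.p02)).add
    ((hx.pow 3).const_mul c.p30)).add (((hx.pow 2).mul hy).const_mul c.p21)).add
    ((hx.mul (hy.pow 2)).const_mul c.p12)).add ((hy.pow 3).const_mul c.p03)).add
    (hX.const_mul c.a0)).add ((hx.mul hX).const_mul c.a1)).add ((hy.mul hX).const_mul c.a2)).add
    (hY.const_mul c.b0)).add ((hx.mul hY).const_mul c.b1)).add ((hy.mul hY).const_mul c.b2)
  refine (h.congr_fderiv ?_).congr_of_eventuallyEq (Eventually.of_forall fun z => ?_)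
  · ext
    · simp [lin_apply, el', genx, geny]
      ring
    · simp [lin_apply, el', genx, geny]
      ring
  · simp only [el, gen, Pi.add_apply, Pi.mul_apply, Function.comp_apply]

lemma continuous_el' (c : Co) (q : ℝ × ℝ) : Continuous (el' c q) := by
  unfold el' genx geny
  apply lin_cont <;> fun_prop

/-- matching across an edge with the normal `(1, 1)` -/
lemma match1 (d e : Da) (h1 : e.fS = d.fE) (h2 : e.gS = d.gE) (h3 : e.kS = d.kE)
    (h4 : e.fW = d.fN) (h5 : e.gW = d.gN) (h6 : e.kW = d.kN) (h7 : e.nB = d.nA) {X : ℝ}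
    (h0 : 0 ≤ X) (h1' : X ≤ 1) :
    gen (co d) X (1 - X) = gen (co e) (X - 1) (-X) ∧
    genx (co d) X (1 - X) = genx (co e) (X - 1) (-X) ∧
    geny (co d) X (1 - X) = geny (co e) (X - 1) (-X) := by
  have e1 : |X| = X := abs_of_nonneg h0
  have e2 : |1 - X| = 1 - X := abs_of_nonneg (by linarith)
  have e3 : |X - 1| = 1 - X := by rw [abs_of_nonpos (by linarith)]; ring
  have e4 : |-X| = X := by rw [abs_neg, e1]
  refine ⟨?_, ?_, ?_⟩
  · simp only [gen, co, e1, e2, e3, e4, h1, h2, h3, h4, h5, h6, h7]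
    ring
  · simp only [genx, co, e1, e2, e3, e4, h1, h2, h3, h4, h5, h6, h7]
    ring
  · simp only [geny, co, e1, e2, e3, e4, h1, h2, h3, h4, h5, h6, h7]
    ring

/-- matching across an edge with the normal `(1, -1)` -/
lemma match2 (d e : Da) (h1 : e.fN = d.fE) (h2 : e.gN = d.gE) (h3 : e.kN = d.kE)
    (h4 : e.fW = d.fS) (h5 : e.gW = d.gS) (h6 : e.kW = d.kS) (h7 : e.nC = d.nD) {X : ℝ}
    (h0 : 0 ≤ X) (h1' : X ≤ 1) :
    gen (co d) X (X - 1) = gen (co e) (X - 1) X ∧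
    genx (co d) X (X - 1) = genx (co e) (X - 1) X ∧
    geny (co d) X (X - 1) = geny (co e) (X - 1) X := by
  have e1 : |X| = X := abs_of_nonneg h0
  have e3 : |X - 1| = 1 - X := by rw [abs_of_nonpos (by linarith)]; ring
  refine ⟨?_, ?_, ?_⟩
  · simp only [gen, co, e1, e3, h1, h2, h3, h4, h5, h6, h7]
    ring
  · simp only [genx, co, e1, e3, h1, h2, h3, h4, h5, h6, h7]
    ring
  · simp only [geny, co, e1, e3, h1, h2, h3, h4, h5, h6, h7]
    ring

/-- the data of a function with the given partial derivatives at the vertices and midpoints of the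
diamond with the center `q` -/
noncomputable def da (f g k : ℝ × ℝ → ℝ) (q : ℝ × ℝ) : Da where
  fE := f (q.1 + 1, q.2)
  gE := g (q.1 + 1, q.2)
  kE := k (q.1 + 1, q.2)
  fW := f (q.1 - 1, q.2)
  gW := g (q.1 - 1, q.2)
  kW := k (q.1 - 1, q.2)
  fN := f (q.1, q.2 + 1)
  gN := g (q.1, q.2 + 1)
  kN := k (q.1, q.2 + 1)
  fS := f (q.1, q.2 - 1)
  gS := g (q.1, q.2 - 1)
  kS := k (q.1, q.2 - 1)
  nA := g (q.1 + 1 / 2, q.2 + 1 / 2) + k (q.1 + 1 / 2, q.2 + 1 / 2)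
  nB := g (q.1 - 1 / 2, q.2 - 1 / 2) + k (q.1 - 1 / 2, q.2 - 1 / 2)
  nC := g (q.1 - 1 / 2, q.2 + 1 / 2) - k (q.1 - 1 / 2, q.2 + 1 / 2)
  nD := g (q.1 + 1 / 2, q.2 - 1 / 2) - k (q.1 + 1 / 2, q.2 - 1 / 2)

lemma mul_step {a b K : ℝ} (h : |a| ≤ K) (h' : |b| ≤ 1) : |a * b| ≤ K := by
  rw [abs_mul]
  have := abs_nonneg a
  have := abs_nonneg b
  nlinarith

/-- all data are at most `δ` -/
structure Da.Le (d : Da) (δ : ℝ) : Prop where
  fE : |d.fE| ≤ δ
  gE : |d.gE| ≤ δ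
  kE : |d.kE| ≤ δ
  fW : |d.fW| ≤ δ
  gW : |d.gW| ≤ δ
  kW : |d.kW| ≤ δ
  fN : |d.fN| ≤ δ
  gN : |d.gN| ≤ δ
  kN : |d.kN| ≤ δ
  fS : |d.fS| ≤ δ
  gS : |d.gS| ≤ δ
  kS : |d.kS| ≤ δ
  nA : |d.nA| ≤ δ
  nB : |d.nB| ≤ δ
  nC : |d.nC| ≤ δ
  nD : |d.nD| ≤ δ

lemma gen_bound (d : Da) {δ X Y : ℝ} (hX : |X| ≤ 1) (hY : |Y| ≤ 1) (hd : d.Le δ) :
    |gen (co d) X Y| ≤ 59 * δ := by
  have a1 := abs_le.1 hd.fE
  have a2 := abs_le.1 hd.gE
  have a3 := abs_le.1 hd.kE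
  have a4 := abs_le.1 hd.fW
  have a5 := abs_le.1 hd.gW
  have a6 := abs_le.1 hd.kW
  have a7 := abs_le.1 hd.fN
  have a8 := abs_le.1 hd.gN
  have a9 := abs_le.1 hd.kN
  have a10 := abs_le.1 hd.fS
  have a11 := abs_le.1 hd.gS
  have a12 := abs_le.1 hd.kS
  have a13 := abs_le.1 hd.nA
  have a14 := abs_le.1 hd.nB
  have a15 := abs_le.1 hd.nC
  have a16 := abs_le.1 hd.nD
  have c1 : |(co d).p00| ≤ 3 / 2 * δ := by simp only [co]; rw [abs_le]; constructor <;> linarith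
  have c2 : |(co d).p10| ≤ 7 / 2 * δ := by simp only [co]; rw [abs_le]; constructor <;> linarith
  have c3 : |(co d).p01| ≤ 7 / 2 * δ := by simp only [co]; rw [abs_le]; constructor <;> linarith
  have c4 : |(co d).p20| ≤ 5 * δ := by simp only [co]; rw [abs_le]; constructor <;> linarith
  have c5 : |(co d).p11| ≤ 5 * δ := by simp only [co]; rw [abs_le]; constructor <;> linarith
  have c6 : |(co d).p02| ≤ 5 * δ := by simp only [co]; rw [abs_le]; constructor <;> linarith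
  have c7 : |(co d).p30| ≤ 3 * δ := by simp only [co]; rw [abs_le]; constructor <;> linarith
  have c8 : |(co d).p21| ≤ 3 * δ := by simp only [co]; rw [abs_le]; constructor <;> linarith
  have c9 : |(co d).p12| ≤ 3 * δ := by simp only [co]; rw [abs_le]; constructor <;> linarith
  have c10 : |(co d).p03| ≤ 3 * δ := by simp only [co]; rw [abs_le]; constructor <;> linarith
  have c11 : |(co d).a0| ≤ 4 * δ := by simp only [co]; rw [abs_le]; constructor <;> linarith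
  have c12 : |(co d).a1| ≤ 11 / 3 * δ := by simp only [co]; rw [abs_le]; constructor <;> linarith
  have c13 : |(co d).a2| ≤ 4 * δ := by simp only [co]; rw [abs_le]; constructor <;> linarith
  have c14 : |(co d).b0| ≤ 4 * δ := by simp only [co]; rw [abs_le]; constructor <;> linarith
  have c15 : |(co d).b1| ≤ 4 * δ := by simp only [co]; rw [abs_le]; constructor <;> linarith
  have c16 : |(co d).b2| ≤ 11 / 3 * δ := by simp only [co]; rw [abs_le]; constructor <;> linarith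
  have hX' : |(|X|)| ≤ 1 := by rwa [abs_abs]
  have hY' : |(|Y|)| ≤ 1 := by rwa [abs_abs]
  have x2 : |X ^ 2| ≤ 1 := by rw [pow_two]; exact mul_step hX hX
  have y2 : |Y ^ 2| ≤ 1 := by rw [pow_two]; exact mul_step hY hY
  have x3 : |X ^ 3| ≤ 1 := by rw [pow_succ]; exact mul_step x2 hX
  have y3 : |Y ^ 3| ≤ 1 := by rw [pow_succ]; exact mul_step y2 hY
  have xx := mul_step hX hX'
  have yy := mul_step hY hY'
  have m2 := abs_le.1 (mul_step c2 hX)
  have m3 := abs_le.1 (mul_step c3 hY)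
  have m4 := abs_le.1 (mul_step c4 x2)
  have m5 := abs_le.1 (mul_step c5 (mul_step hX hY))
  have m6 := abs_le.1 (mul_step c6 y2)
  have m7 := abs_le.1 (mul_step c7 x3)
  have m8 := abs_le.1 (mul_step c8 (mul_step x2 hY))
  have m9 := abs_le.1 (mul_step c9 (mul_step hX y2))
  have m10 := abs_le.1 (mul_step c10 y3)
  have m11 := abs_le.1 (mul_step c11 xx)
  have m12 := abs_le.1 (mul_step c12 (mul_step hX xx))
  have m13 := abs_le.1 (mul_step c13 (mul_step hY xx))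
  have m14 := abs_le.1 (mul_step c14 yy)
  have m15 := abs_le.1 (mul_step c15 (mul_step hX yy))
  have m16 := abs_le.1 (mul_step c16 (mul_step hY yy))
  have m1 := abs_le.1 c1
  unfold gen
  rw [abs_le]
  constructor <;> linarith

/-- the element depends linearly on the data -/
lemma gen_sub (f g k f' g' k' : ℝ × ℝ → ℝ) (q : ℝ × ℝ) (X Y : ℝ) :
    gen (co (da f g k q)) X Y - gen (co (da f' g' k' q)) X Y =
      gen (co (da (fun z => f z - f' z) (fun z => g z - g' z) (fun z => k z - k' z) q)) X Y := by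
  simp only [gen, co, da]
  ring

/-- exactness for cubic polynomials -/
lemma exact_cub (A : ℕ → ℕ → ℝ) (hA : ∀ i j, 4 ≤ i + j → A i j = 0) (q : ℝ × ℝ) (X Y : ℝ) :
    gen (co (da (cub A q) (cub (fun i j => A (i + 1) j) q) (cub (fun i j => A i (j + 1)) q) q))
      X Y = cub A q (q.1 + X, q.2 + Y) := by
  have e40 := hA 4 0 (by norm_num)
  have e31 := hA 3 1 (by norm_num)
  have e22 := hA 2 2 (by norm_num)
  have e13 := hA 1 3 (by norm_num)
  have e04 := hA 0 4 (by norm_num)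
  simp only [gen, co, da, cub, e40, e31, e22, e13, e04, Nat.reduceAdd, zero_add]
  ring

lemma mem_ball_of {q : ℝ × ℝ} {a b : ℝ} (ha : |a| ≤ 1) (hb : |b| ≤ 1) :
    (q.1 + a, q.2 + b) ∈ Metric.closedBall q 1 := by
  rw [Metric.mem_closedBall, dist_eq_norm, Prod.norm_def]
  simpa using ⟨ha, hb⟩

/-- the error of the interpolation -/
lemma error {f : ℝ × ℝ → ℝ} (hf : ContDiff ℝ 4 f) {M : ℝ}
    (hM : ∀ i j, i + j = 4 → ∀ z, |pd i j f z| ≤ M) (q : ℝ × ℝ) {X Y : ℝ} (hX : |X| ≤ 1)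
    (hY : |Y| ≤ 1) :
    |f (q.1 + X, q.2 + Y) - gen (co (da f (pd 1 0 f) (pd 0 1 f) q)) X Y| ≤ 960 * M := by
  have hM0 : 0 ≤ M := (abs_nonneg _).trans (hM 4 0 rfl q)
  set A : ℕ → ℕ → ℝ := co3 f q with hA
  have hA0 : ∀ i j, 4 ≤ i + j → A i j = 0 := fun i j h => by
    rw [hA]; unfold co3; rw [if_neg (by omega)]
  have r0 := rem hf hM q 4 0 0 (by norm_num)
  have r1 := rem hf hM q 3 1 0 (by norm_num)
  have r2 := rem hf hM q 3 0 1 (by norm_num)
  simp only [add_zero] at r0 r1 r2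
  have hp : pd 0 0 f = f := rfl
  rw [hp] at r0
  have hd : (da (fun z => f z - cub A q z) (fun z => pd 1 0 f z - cub (fun i j => A (i + 1) j) q z)
      (fun z => pd 0 1 f z - cub (fun i j => A i (j + 1)) q z) q).Le (16 * M) := by
    have one : |(1 : ℝ)| ≤ 1 := by norm_num
    have mone : |(-1 : ℝ)| ≤ 1 := by norm_num
    have zer : |(0 : ℝ)| ≤ 1 := by norm_num
    have hlf : |(1 / 2 : ℝ)| ≤ 1 := by rw [abs_of_pos] <;> norm_num
    have mhlf : |(-(1 / 2) : ℝ)| ≤ 1 := by rw [abs_neg]; exact hlf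
    have E := mem_ball_of (q := q) one zer
    have W := mem_ball_of (q := q) mone zer
    have N := mem_ball_of (q := q) zer one
    have S := mem_ball_of (q := q) zer mone
    have NE := mem_ball_of (q := q) hlf hlf
    have SW := mem_ball_of (q := q) mhlf mhlf
    have NW := mem_ball_of (q := q) mhlf hlf
    have SE := mem_ball_of (q := q) hlf mhlf
    simp only [add_zero, ← sub_eq_add_neg] at E W N S NE SW NW SE
    have b1 : ∀ z ∈ Metric.closedBall q 1,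
        |pd 1 0 f z - cub (fun i j => A (i + 1) j) q z| ≤ 8 * M := fun z hz => by
      have := r1 z hz
      norm_num at this
      exact this
    have b2 : ∀ z ∈ Metric.closedBall q 1,
        |pd 0 1 f z - cub (fun i j => A i (j + 1)) q z| ≤ 8 * M := fun z hz => by
      have := r2 z hz
      norm_num at this
      exact this
    have b0 : ∀ z ∈ Metric.closedBall q 1, |f z - cub A q z| ≤ 16 * M := fun z hz => by
      have := r0 z hz
      norm_num at this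
      exact this
    have s1 : ∀ z ∈ Metric.closedBall q 1, |pd 1 0 f z - cub (fun i j => A (i + 1) j) q z +
        (pd 0 1 f z - cub (fun i j => A i (j + 1)) q z)| ≤ 16 * M := fun z hz =>
      (abs_add_le _ _).trans (by linarith [b1 z hz, b2 z hz])
    have s2 : ∀ z ∈ Metric.closedBall q 1, |pd 1 0 f z - cub (fun i j => A (i + 1) j) q z -
        (pd 0 1 f z - cub (fun i j => A i (j + 1)) q z)| ≤ 16 * M := fun z hz =>
      (abs_sub _ _).trans (by linarith [b1 z hz, b2 z hz])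
    have l1 : ∀ z ∈ Metric.closedBall q 1,
        |pd 1 0 f z - cub (fun i j => A (i + 1) j) q z| ≤ 16 * M := fun z hz => by
      linarith [b1 z hz]
    have l2 : ∀ z ∈ Metric.closedBall q 1,
        |pd 0 1 f z - cub (fun i j => A i (j + 1)) q z| ≤ 16 * M := fun z hz => by
      linarith [b2 z hz]
    exact ⟨b0 _ E, l1 _ E, l2 _ E, b0 _ W, l1 _ W, l2 _ W, b0 _ N, l1 _ N, l2 _ N, b0 _ S, l1 _ S,
      l2 _ S, s1 _ NE, s1 _ SW, s2 _ NW, s2 _ SE⟩
  have h1 := gen_bound _ hX hY hd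
  rw [← gen_sub, exact_cub A hA0] at h1
  have h2 := r0 _ (mem_ball_of (q := q) hX hY)
  rw [abs_le] at h1 h2 ⊢
  constructor <;> linarith

end Pool.Agent.U252.Sp
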