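import Pool.Agent.U252.Sp.B

/-! Gluing of the elements. -/

set_option autoImplicit false

open Set Filter Topology

namespace Pool.Agent.U252.Sp

/-- gluing of `C¹` functions on a locally finite closed cover -/
lemma glue {ι : Type*} {D : ι → Set (ℝ × ℝ)} (hlf : LocallyFinite D) (hcl : ∀ i, IsClosed (D i))
    (hcov : ⋃ i, D i = univ) {F : ι → ℝ × ℝ → ℝ} {F' : ι → ℝ × ℝ → (ℝ × ℝ →L[ℝ] ℝ)}
    (hF : ∀ i z, HasFDerivAt (F i) (F' i z) z) (hF' : ∀ i, Continuous (F' i)) {s : ℝ × ℝ → ℝ}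
    {s' : ℝ × ℝ → (ℝ × ℝ →L[ℝ] ℝ)} (hs : ∀ i, ∀ z ∈ D i, s z = F i z)
    (hs' : ∀ i, ∀ z ∈ D i, s' z = F' i z) : ContDiff ℝ 1 s := by
  have hder : ∀ z, HasFDerivAt s (s' z) z := by
    intro z
    obtain ⟨U, hU, hfin⟩ := hlf z
    have hW : ∀ i, HasFDerivWithinAt s (s' z) (D i) z := by
      intro i
      by_cases hz : z ∈ D i
      · rw [hs' i z hz]
        exact ((hF i z).hasFDerivWithinAt).congr (fun y hy => hs i y hy) (hs i z hz)
      · exact HasFDerivWithinAt.of_notMem_closure (by rwa [(hcl i).closure_eq])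
    have hfin' : ∀ t : Finset ι, HasFDerivWithinAt s (s' z) (⋃ i ∈ t, D i) z := by
      classical
      intro t
      induction t using Finset.induction_on with
      | empty =>
        apply HasFDerivWithinAt.of_notMem_closure
        simp
      | insert a t ha ih =>
        rw [Finset.set_biUnion_insert]
        exact (hW a).union ih
    have h1 := hfin' hfin.toFinset
    refine h1.hasFDerivAt (mem_of_superset hU fun y hy => ?_)
    obtain ⟨i, hi⟩ := mem_iUnion.1 (hcov.ge (mem_univ y))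
    refine mem_iUnion₂.2 ⟨i, ?_, hi⟩
    rw [Set.Finite.mem_toFinset]
    exact ⟨y, hi, hy⟩
  have hcont : Continuous s' := hlf.continuous hcov hcl fun i =>
    ((hF' i).continuousOn).congr fun z hz => hs' i z hz
  rw [contDiff_one_iff_fderiv]
  refine ⟨fun z => (hder z).differentiableAt, ?_⟩
  have : fderiv ℝ s = s' := funext fun z => (hder z).fderiv
  rw [this]
  exact hcont

/-- the centers of the diamonds -/
noncomputable def ctr (k l : ℤ) : ℝ × ℝ := ((k : ℝ) + l + 1, (k : ℝ) - l)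

/-- the diamonds -/
def dia (i : ℤ × ℤ) : Set (ℝ × ℝ) :=
  {z | 2 * (i.1 : ℝ) ≤ z.1 + z.2 ∧ z.1 + z.2 ≤ 2 * i.1 + 2 ∧
    2 * (i.2 : ℝ) ≤ z.1 - z.2 ∧ z.1 - z.2 ≤ 2 * i.2 + 2}

variable (f g k : ℝ × ℝ → ℝ)

noncomputable def E (m n : ℤ) (z : ℝ × ℝ) : ℝ := el (co (da f g k (ctr m n))) (ctr m n) z

noncomputable def E' (m n : ℤ) (z : ℝ × ℝ) : ℝ × ℝ →L[ℝ] ℝ :=
  el' (co (da f g k (ctr m n))) (ctr m n) z

lemma step1 (m n : ℤ) (z : ℝ × ℝ) (h : z.1 + z.2 = 2 * m + 2) (h1 : 2 * (n : ℝ) ≤ z.1 - z.2)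
    (h2 : z.1 - z.2 ≤ 2 * n + 2) :
    E f g k m n z = E f g k (m + 1) n z ∧ E' f g k m n z = E' f g k (m + 1) n z := by
  set X : ℝ := z.1 - ((m : ℝ) + n + 1) with hX
  have e1 : z.1 - (ctr m n).1 = X := by simp only [ctr]; rw [hX]
  have e2 : z.2 - (ctr m n).2 = 1 - X := by simp only [ctr]; rw [hX]; linarith
  have e3 : z.1 - (ctr (m + 1) n).1 = X - 1 := by simp only [ctr]; rw [hX]; push_cast; ring
  have e4 : z.2 - (ctr (m + 1) n).2 = -X := by simp only [ctr]; rw [hX]; push_cast; linarith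
  have p1 : ((ctr (m + 1) n).1, (ctr (m + 1) n).2 - 1) = ((ctr m n).1 + 1, (ctr m n).2) := by
    simp only [ctr, Prod.mk.injEq]; push_cast; constructor <;> ring
  have p2 : ((ctr (m + 1) n).1 - 1, (ctr (m + 1) n).2) = ((ctr m n).1, (ctr m n).2 + 1) := by
    simp only [ctr, Prod.mk.injEq]; push_cast; constructor <;> ring
  have p3 : ((ctr (m + 1) n).1 - 1 / 2, (ctr (m + 1) n).2 - 1 / 2) =
      ((ctr m n).1 + 1 / 2, (ctr m n).2 + 1 / 2) := by
    simp only [ctr, Prod.mk.injEq]; push_cast; constructor <;> ring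
  obtain ⟨m1, m2, m3⟩ := match1 (da f g k (ctr m n)) (da f g k (ctr (m + 1) n))
    (by simp only [da, p1]) (by simp only [da, p1]) (by simp only [da, p1])
    (by simp only [da, p2]) (by simp only [da, p2]) (by simp only [da, p2])
    (by simp only [da, p3]) (X := X) (by rw [hX]; linarith) (by rw [hX]; linarith)
  constructor
  · unfold E el
    rw [e1, e2, e3, e4]
    exact m1
  · unfold E' el'
    rw [e1, e2, e3, e4, m2, m3]

lemma step2 (m n : ℤ) (z : ℝ × ℝ) (h : z.1 - z.2 = 2 * n + 2) (h1 : 2 * (m : ℝ) ≤ z.1 + z.2)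
    (h2 : z.1 + z.2 ≤ 2 * m + 2) :
    E f g k m n z = E f g k m (n + 1) z ∧ E' f g k m n z = E' f g k m (n + 1) z := by
  set X : ℝ := z.1 - ((m : ℝ) + n + 1) with hX
  have e1 : z.1 - (ctr m n).1 = X := by simp only [ctr]; rw [hX]
  have e2 : z.2 - (ctr m n).2 = X - 1 := by simp only [ctr]; rw [hX]; linarith
  have e3 : z.1 - (ctr m (n + 1)).1 = X - 1 := by simp only [ctr]; rw [hX]; push_cast; ring
  have e4 : z.2 - (ctr m (n + 1)).2 = X := by simp only [ctr]; rw [hX]; push_cast; linarith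
  have p1 : ((ctr m (n + 1)).1, (ctr m (n + 1)).2 + 1) = ((ctr m n).1 + 1, (ctr m n).2) := by
    simp only [ctr, Prod.mk.injEq]; push_cast; constructor <;> ring
  have p2 : ((ctr m (n + 1)).1 - 1, (ctr m (n + 1)).2) = ((ctr m n).1, (ctr m n).2 - 1) := by
    simp only [ctr, Prod.mk.injEq]; push_cast; constructor <;> ring
  have p3 : ((ctr m (n + 1)).1 - 1 / 2, (ctr m (n + 1)).2 + 1 / 2) =
      ((ctr m n).1 + 1 / 2, (ctr m n).2 - 1 / 2) := by
    simp only [ctr, Prod.mk.injEq]; push_cast; constructor <;> ring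
  obtain ⟨m1, m2, m3⟩ := match2 (da f g k (ctr m n)) (da f g k (ctr m (n + 1)))
    (by simp only [da, p1]) (by simp only [da, p1]) (by simp only [da, p1])
    (by simp only [da, p2]) (by simp only [da, p2]) (by simp only [da, p2])
    (by simp only [da, p3]) (X := X) (by rw [hX]; linarith) (by rw [hX]; linarith)
  constructor
  · unfold E el
    rw [e1, e2, e3, e4]
    exact m1
  · unfold E' el'
    rw [e1, e2, e3, e4, m2, m3]

/-- the interpolating spline -/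
noncomputable def sp (z : ℝ × ℝ) : ℝ := E f g k ⌊(z.1 + z.2) / 2⌋ ⌊(z.1 - z.2) / 2⌋ z

/-- its derivative -/
noncomputable def sp' (z : ℝ × ℝ) : ℝ × ℝ →L[ℝ] ℝ :=
  E' f g k ⌊(z.1 + z.2) / 2⌋ ⌊(z.1 - z.2) / 2⌋ z

lemma agree (i : ℤ × ℤ) (z : ℝ × ℝ) (hz : z ∈ dia i) :
    sp f g k z = E f g k i.1 i.2 z ∧ sp' f g k z = E' f g k i.1 i.2 z := by
  obtain ⟨m, n⟩ := i
  obtain ⟨h1, h2, h3, h4⟩ := hz
  simp only at h1 h2 h3 h4 ⊢
  unfold sp sp'
  have a1 := Int.floor_le ((z.1 + z.2) / 2)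
  have a2 := Int.lt_floor_add_one ((z.1 + z.2) / 2)
  have a3 := Int.floor_le ((z.1 - z.2) / 2)
  have a4 := Int.lt_floor_add_one ((z.1 - z.2) / 2)
  have b1 : m ≤ ⌊(z.1 + z.2) / 2⌋ := Int.le_floor.2 (by linarith)
  have b2 : ⌊(z.1 + z.2) / 2⌋ ≤ m + 1 := by
    have : (⌊(z.1 + z.2) / 2⌋ : ℝ) ≤ ((m + 1 : ℤ) : ℝ) := by push_cast; linarith
    exact_mod_cast this
  have b3 : n ≤ ⌊(z.1 - z.2) / 2⌋ := Int.le_floor.2 (by linarith)
  have b4 : ⌊(z.1 - z.2) / 2⌋ ≤ n + 1 := by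
    have : (⌊(z.1 - z.2) / 2⌋ : ℝ) ≤ ((n + 1 : ℤ) : ℝ) := by push_cast; linarith
    exact_mod_cast this
  generalize hM : ⌊(z.1 + z.2) / 2⌋ = m' at a1 a2 b1 b2 ⊢
  generalize hN : ⌊(z.1 - z.2) / 2⌋ = n' at a3 a4 b3 b4 ⊢
  have s1 : E f g k m n z = E f g k m' n z ∧ E' f g k m n z = E' f g k m' n z := by
    rcases (by omega : m' = m ∨ m' = m + 1) with h | h
    · rw [h]; exact ⟨rfl, rfl⟩
    · rw [h] at a1 ⊢
      push_cast at a1
      exact step1 f g k m n z (by linarith) h3 h4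
  have s2 : E f g k m' n z = E f g k m' n' z ∧ E' f g k m' n z = E' f g k m' n' z := by
    rcases (by omega : n' = n ∨ n' = n + 1) with h | h
    · rw [h]; exact ⟨rfl, rfl⟩
    · rw [h] at a3 ⊢
      push_cast at a3
      exact step2 f g k m' n z (by linarith) (by linarith) (by linarith)
  exact ⟨(s1.1.trans s2.1).symm, (s1.2.trans s2.2).symm⟩

lemma dia_closed (i : ℤ × ℤ) : IsClosed (dia i) := by
  have : dia i = {z : ℝ × ℝ | 2 * (i.1 : ℝ) ≤ z.1 + z.2} ∩ ({z : ℝ × ℝ | z.1 + z.2 ≤ 2 * i.1 + 2} ∩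
      ({z : ℝ × ℝ | 2 * (i.2 : ℝ) ≤ z.1 - z.2} ∩ {z : ℝ × ℝ | z.1 - z.2 ≤ 2 * i.2 + 2})) := rfl
  rw [this]
  exact (isClosed_le (by fun_prop) (by fun_prop)).inter ((isClosed_le (by fun_prop)
    (by fun_prop)).inter ((isClosed_le (by fun_prop) (by fun_prop)).inter
    (isClosed_le (by fun_prop) (by fun_prop))))

lemma dia_floor (z : ℝ × ℝ) : z ∈ dia (⌊(z.1 + z.2) / 2⌋, ⌊(z.1 - z.2) / 2⌋) := by
  have a1 := Int.floor_le ((z.1 + z.2) / 2)
  have a2 := Int.lt_floor_add_one ((z.1 + z.2) / 2)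
  have a3 := Int.floor_le ((z.1 - z.2) / 2)
  have a4 := Int.lt_floor_add_one ((z.1 - z.2) / 2)
  exact ⟨by simp only; linarith, by simp only; linarith, by simp only; linarith,
    by simp only; linarith⟩

lemma dia_cover : ⋃ i, dia i = univ :=
  eq_univ_of_forall fun z => mem_iUnion.2 ⟨_, dia_floor z⟩

lemma dia_lf : LocallyFinite dia := by
  intro z
  refine ⟨Metric.ball z 1, Metric.ball_mem_nhds z one_pos, ?_⟩
  refine ((Set.finite_Icc (⌊(z.1 + z.2 - 4) / 2⌋) (⌈(z.1 + z.2 + 2) / 2⌉)).prod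
    (Set.finite_Icc (⌊(z.1 - z.2 - 4) / 2⌋) (⌈(z.1 - z.2 + 2) / 2⌉))).subset ?_
  rintro ⟨m, n⟩ ⟨y, ⟨h1, h2, h3, h4⟩, hy⟩
  rw [Metric.mem_ball, dist_eq_norm, Prod.norm_def, max_lt_iff] at hy
  simp only [Prod.fst_sub, Prod.snd_sub, Real.norm_eq_abs, abs_lt] at hy
  simp only at h1 h2 h3 h4
  obtain ⟨⟨y1, y2⟩, y3, y4⟩ := hy
  refine ⟨⟨?_, ?_⟩, ⟨?_, ?_⟩⟩
  · have := Int.floor_le ((z.1 + z.2 - 4) / 2)
    have h : (⌊(z.1 + z.2 - 4) / 2⌋ : ℝ) ≤ (m : ℝ) := by linarith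
    exact_mod_cast h
  · have := Int.le_ceil ((z.1 + z.2 + 2) / 2)
    have h : (m : ℝ) ≤ (⌈(z.1 + z.2 + 2) / 2⌉ : ℝ) := by linarith
    exact_mod_cast h
  · have := Int.floor_le ((z.1 - z.2 - 4) / 2)
    have h : (⌊(z.1 - z.2 - 4) / 2⌋ : ℝ) ≤ (n : ℝ) := by linarith
    exact_mod_cast h
  · have := Int.le_ceil ((z.1 - z.2 + 2) / 2)
    have h : (n : ℝ) ≤ (⌈(z.1 - z.2 + 2) / 2⌉ : ℝ) := by linarith
    exact_mod_cast h

lemma sp_contDiff : ContDiff ℝ 1 (sp f g k) :=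
  glue dia_lf dia_closed dia_cover (F := fun i => E f g k i.1 i.2) (F' := fun i => E' f g k i.1 i.2)
    (fun _ z => hasFDerivAt_el _ _ z) (fun _ => continuous_el' _ _)
    (fun i z hz => (agree f g k i z hz).1) (s' := sp' f g k)
    (fun i z hz => (agree f g k i z hz).2)

/-- the error of the spline -/
lemma sp_error {f : ℝ × ℝ → ℝ} (hf : ContDiff ℝ 4 f) {M : ℝ}
    (hM : ∀ i j, i + j = 4 → ∀ z, |pd i j f z| ≤ M) (z : ℝ × ℝ) :
    |f z - sp f (pd 1 0 f) (pd 0 1 f) z| ≤ 960 * M := by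
  obtain ⟨h1, h2, h3, h4⟩ := dia_floor z
  rw [(agree f (pd 1 0 f) (pd 0 1 f) _ z (dia_floor z)).1]
  generalize hm : ⌊(z.1 + z.2) / 2⌋ = m at h1 h2 h3 h4 ⊢
  generalize hn : ⌊(z.1 - z.2) / 2⌋ = n at h1 h2 h3 h4 ⊢
  simp only at h1 h2 h3 h4 ⊢
  unfold E el
  have hX : |z.1 - (ctr m n).1| ≤ 1 := by
    simp only [ctr]; rw [abs_le]; constructor <;> linarith
  have hY : |z.2 - (ctr m n).2| ≤ 1 := by
    simp only [ctr]; rw [abs_le]; constructor <;> linarith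
  have := error hf hM (ctr m n) hX hY
  have e : ((ctr m n).1 + (z.1 - (ctr m n).1), (ctr m n).2 + (z.2 - (ctr m n).2)) = z := by
    ext <;> simp
  rwa [e] at this

end Pool.Agent.U252.Sp
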