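import Pool.Agent.U252.Sp.C

/-! Polynomials on triangles. -/

set_option autoImplicit false

open Set Filter Topology MvPolynomial

namespace Pool.Agent.U252.Sp

/-- `g` is a polynomial of total degree at most `n` -/
def Deg (n : ℕ) (g : ℝ × ℝ → ℝ) : Prop :=
  ∃ p : MvPolynomial (Fin 2) ℝ, p.totalDegree ≤ n ∧ ∀ z : ℝ × ℝ, g z = eval ![z.1, z.2] p

lemma Deg.const (n : ℕ) (a : ℝ) : Deg n (fun _ => a) :=
  ⟨C a, by rw [totalDegree_C]; exact Nat.zero_le _, fun z => by simp⟩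

lemma Deg.fst : Deg 1 (fun z => z.1) := ⟨X 0, by rw [totalDegree_X], fun z => by simp⟩

lemma Deg.snd : Deg 1 (fun z => z.2) := ⟨X 1, by rw [totalDegree_X], fun z => by simp⟩

lemma Deg.mono {m n : ℕ} {g : ℝ × ℝ → ℝ} (h : Deg m g) (hmn : m ≤ n) : Deg n g := by
  obtain ⟨p, h1, h2⟩ := h
  exact ⟨p, h1.trans hmn, h2⟩

lemma Deg.add {n : ℕ} {g g' : ℝ × ℝ → ℝ} (h : Deg n g) (h' : Deg n g') :
    Deg n (fun z => g z + g' z) := by
  obtain ⟨p, h1, h2⟩ := h
  obtain ⟨p', h1', h2'⟩ := h'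
  exact ⟨p + p', (totalDegree_add _ _).trans (max_le h1 h1'), fun z => by
    simp only [h2, h2', map_add]⟩

lemma Deg.mul {m n : ℕ} {g g' : ℝ × ℝ → ℝ} (h : Deg m g) (h' : Deg n g') :
    Deg (m + n) (fun z => g z * g' z) := by
  obtain ⟨p, h1, h2⟩ := h
  obtain ⟨p', h1', h2'⟩ := h'
  exact ⟨p * p', (totalDegree_mul _ _).trans (add_le_add h1 h1'), fun z => by
    simp only [h2, h2', map_mul]⟩

lemma Deg.cmul {n : ℕ} {g : ℝ × ℝ → ℝ} (a : ℝ) (h : Deg n g) : Deg n (fun z => a * g z) := by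
  have := (Deg.const 0 a).mul h
  rwa [zero_add] at this

lemma Deg.congr {n : ℕ} {g g' : ℝ × ℝ → ℝ} (h : Deg n g) (e : ∀ z, g' z = g z) : Deg n g' := by
  obtain ⟨p, h1, h2⟩ := h
  exact ⟨p, h1, fun z => by rw [e, h2]⟩

/-- the element on a quadrant -/
lemma deg_gen (c : Co) (h : ℝ) (q : ℝ × ℝ) (sx sy : ℝ) : ∃ G : ℝ × ℝ → ℝ, Deg 3 G ∧
    ∀ z : ℝ × ℝ, |z.1 / h - q.1| = sx * (z.1 / h - q.1) → |z.2 / h - q.2| = sy * (z.2 / h - q.2) →
      gen c (z.1 / h - q.1) (z.2 / h - q.2) = G z := by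
  have hX : Deg 1 (fun z => z.1 / h - q.1) := by
    have := (Deg.fst.cmul (1 / h)).add (Deg.const 1 (-q.1))
    exact this.congr fun z => by ring
  have hY : Deg 1 (fun z => z.2 / h - q.2) := by
    have := (Deg.snd.cmul (1 / h)).add (Deg.const 1 (-q.2))
    exact this.congr fun z => by ring
  have hXX := hX.mul hX
  have hXY := hX.mul hY
  have hYY := hY.mul hY
  have t0 : Deg 3 (fun _ => c.p00) := Deg.const 3 _
  have t1 := (hX.cmul c.p10).mono (show 1 ≤ 3 by norm_num)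
  have t2 := (hY.cmul c.p01).mono (show 1 ≤ 3 by norm_num)
  have t3 := (hXX.cmul (c.p20 + sx * c.a0)).mono (show 1 + 1 ≤ 3 by norm_num)
  have t4 := (hXY.cmul c.p11).mono (show 1 + 1 ≤ 3 by norm_num)
  have t5 := (hYY.cmul (c.p02 + sy * c.b0)).mono (show 1 + 1 ≤ 3 by norm_num)
  have t6 := ((hXX.mul hX).cmul (c.p30 + sx * c.a1)).mono (show 1 + 1 + 1 ≤ 3 by norm_num)
  have t7 := ((hXX.mul hY).cmul (c.p21 + sx * c.a2)).mono (show 1 + 1 + 1 ≤ 3 by norm_num)
  have t8 := ((hYY.mul hX).cmul (c.p12 + sy * c.b1)).mono (show 1 + 1 + 1 ≤ 3 by norm_num)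
  have t9 := ((hYY.mul hY).cmul (c.p03 + sy * c.b2)).mono (show 1 + 1 + 1 ≤ 3 by norm_num)
  refine ⟨_, ((((((((t0.add t1).add t2).add t3).add t4).add t5).add t6).add t7).add t8).add t9,
    fun z h1 h2 => ?_⟩
  unfold gen
  rw [h1, h2]
  ring

/-- the fourth difference of a cubic polynomial on a horizontal line -/
lemma fourth_diff (p : MvPolynomial (Fin 2) ℝ) (hp : p.totalDegree ≤ 3) (t y : ℝ) :
    eval ![4 * t, y] p - 4 * eval ![3 * t, y] p + 6 * eval ![2 * t, y] p - 4 * eval ![t, y] p +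
      eval ![0, y] p = 0 := by
  simp only [eval_eq', Fin.prod_univ_two, Matrix.cons_val_zero, Matrix.cons_val_one,
    Finset.mul_sum, ← Finset.sum_sub_distrib, ← Finset.sum_add_distrib]
  refine Finset.sum_eq_zero fun d hd => ?_
  have h1 : d 0 ≤ 3 := by
    have h2 := (le_totalDegree hd).trans hp
    have h3 : (d.sum fun _ e => e) = d 0 + d 1 := by
      rw [Finsupp.sum_fintype _ _ (fun _ => rfl), Fin.sum_univ_two]
    omega
  generalize d 0 = a at h1 ⊢
  interval_cases a <;> ring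

lemma D1_pow (a : ℝ) (n : ℕ) : D1 (fun z => a * z.1 ^ (n + 1)) =
    fun z => a * (n + 1) * z.1 ^ n := by
  funext z
  have h : HasFDerivAt (fun z : ℝ × ℝ => a * z.1 ^ (n + 1))
      ((a * ((n + 1 : ℕ) * z.1 ^ n)) • ContinuousLinearMap.fst ℝ ℝ ℝ) z := by
    have := ((hasDerivAt_pow (n + 1) z.1).const_mul a).comp_hasFDerivAt z
      (hasFDerivAt_fst (𝕜 := ℝ) (E := ℝ) (F := ℝ) (p := z))
    exact this
  unfold D1
  rw [h.fderiv]
  simp
  ring

lemma D2_fst (φ : ℝ → ℝ) (hφ : Differentiable ℝ φ) : D2 (fun z => φ z.1) = fun _ => 0 := by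
  funext z
  have h : HasFDerivAt (fun z : ℝ × ℝ => φ z.1)
      ((deriv φ z.1) • ContinuousLinearMap.fst ℝ ℝ ℝ) z :=
    (hφ z.1).hasDerivAt.comp_hasFDerivAt z (hasFDerivAt_fst (𝕜 := ℝ) (E := ℝ) (F := ℝ) (p := z))
  unfold D2
  rw [h.fderiv]
  simp

lemma D1_zero : D1 (fun _ => 0) = fun _ => 0 := by
  funext z
  simp [D1]

lemma D2_zero : D2 (fun _ => 0) = fun _ => 0 := by
  funext z
  simp [D2]

/-- the fourth derivatives of `x ^ 4` -/
lemma pd_x4 (i j : ℕ) (hij : i + j = 4) (z : ℝ × ℝ) : |pd i j (fun z => z.1 ^ 4) z| ≤ 24 := by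
  have hz : D2 (fun z => z.1 ^ 4) = fun _ => 0 := D2_fst (fun x => x ^ 4) (by fun_prop)
  have key : ∀ j i, pd i (j + 1) (fun z => z.1 ^ 4) = fun _ => 0 := by
    intro j i
    unfold pd
    rw [Function.iterate_succ_apply, hz]
    have h1 : ∀ n : ℕ, D2^[n] (fun _ => 0) = fun _ => 0 := fun n => by
      induction n with
      | zero => rfl
      | succ n ih => rw [Function.iterate_succ_apply, D2_zero, ih]
    have h2 : ∀ n : ℕ, D1^[n] (fun _ => 0) = fun _ => 0 := fun n => by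
      induction n with
      | zero => rfl
      | succ n ih => rw [Function.iterate_succ_apply, D1_zero, ih]
    rw [h1, h2]
  rcases j with _ | j
  · have hi : i = 4 := by omega
    subst hi
    have e : pd 4 0 (fun z => z.1 ^ 4) = fun _ => 24 := by
      have e0 : (fun z : ℝ × ℝ => z.1 ^ 4) = fun z => (1 : ℝ) * z.1 ^ (3 + 1) := by
        funext z; ring
      unfold pd
      simp only [Function.iterate_zero, id_eq, Function.iterate_succ, Function.comp_apply]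
      rw [e0, D1_pow, D1_pow, D1_pow, D1_pow]
      funext z
      norm_num
    rw [e]
    norm_num
  · rw [key]
    norm_num

end Pool.Agent.U252.Sp
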